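import Pool.Agent.TH84.SF.Spec

set_option autoImplicit false

namespace Pool.Agent.T9h71.SF

open Pool.Agent.TH84.SF

theorem sI : S_I := by
  intro G A _ X xs B E E' f hX hF J
  classical
  induction J using Finset.induction_on with
  | empty =>
    intro _ x hx
    exact ⟨x, hx, fun g hg => absurd hg (Finset.notMem_empty g), fun _ _ => rfl⟩
  | insert a J ha ih =>
    intro hJ x hx
    obtain ⟨x', hx', h1, h2⟩ := ih (fun g hg g' hg' e he e' he' h =>
      hJ g (Finset.mem_insert_of_mem hg) g' (Finset.mem_insert_of_mem hg') e he e' he' h) x hx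
    have hy : tr a x' ∈ X := hX a x' hx'
    let z : G → A := fun g => if g ∈ E then f (tr a x') g else tr a x' g
    have hz : z ∈ X := hF.mem (tr a x') hy z (fun g hg => by simp [z, hg])
      (fun g hg => by simp [z, hg])
    have hloc : ∀ e ∈ E, f (tr a x') e = f (tr a x) e := by
      refine hF.loc _ _ ?_
      intro g hg
      refine h2 (a * g) ?_
      intro g' hg' hE
      have h3 : a = g' := hJ a (Finset.mem_insert_self a J) g' (Finset.mem_insert_of_mem hg')
        g hg _ (hF.subE hE) (by group)
      exact ha (h3 ▸ hg')
    have hoff : ∀ g ∈ J, ∀ e ∈ E, a⁻¹ * (g * e) ∉ E := by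
      intro g hg e he hE
      have h3 : g = a := hJ g (Finset.mem_insert_of_mem hg) a (Finset.mem_insert_self a J)
        e (hF.subE he) _ (hF.subE hE) (by group)
      exact ha (h3 ▸ hg)
    refine ⟨tr a⁻¹ z, hX a⁻¹ z hz, ?_, ?_⟩
    · intro g hg e he
      rcases Finset.mem_insert.mp hg with rfl | hg
      · have h3 : tr g⁻¹ z (g * e) = z e := by
          simp only [tr]
          congr 1
          group
        rw [h3, ← hloc e he]
        simp [z, he]
      · have h3 : tr a⁻¹ z (g * e) = x' (g * e) := by
          simp only [tr, z, if_neg (hoff g hg e he)]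
          congr 1
          group
        rw [h3, h1 g hg e he]
    · intro h hh
      have h3 : a⁻¹ * h ∉ E := hh a (Finset.mem_insert_self a J)
      have h4 : tr a⁻¹ z h = x' h := by
        simp only [tr, z, if_neg h3]
        congr 1
        group
      rw [h4]
      exact h2 h (fun g hg => hh g (Finset.mem_insert_of_mem hg))

end Pool.Agent.T9h71.SF

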