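import Pool.Agent.TH84.SF.Spec

set_option autoImplicit false

namespace Pool.Agent.T9h71.SF

open Pool.Agent.TH84.SF

theorem exists_k (q A c : ℕ) (hq : 1 ≤ q) :
    ∃ k : ℕ, 2 ≤ k ∧ A ^ (4 * c) * q ^ k < (q + 1) ^ k := by
  have hq0 : (0 : ℝ) < q := by exact_mod_cast hq
  have h1 : (1 : ℝ) < ((q : ℝ) + 1) / q := by
    rw [lt_div_iff₀ hq0]
    linarith
  obtain ⟨k, hk⟩ := pow_unbounded_of_one_lt ((A : ℝ) ^ (4 * c)) h1
  refine ⟨k + 2, by omega, ?_⟩
  have h2 : (A : ℝ) ^ (4 * c) < (((q : ℝ) + 1) / q) ^ (k + 2) :=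
    hk.trans_le (pow_le_pow_right₀ h1.le (by omega))
  rw [div_pow, lt_div_iff₀ (pow_pos hq0 _)] at h2
  exact_mod_cast h2

theorem sN : S_N := by
  intro q A c hq hA
  obtain ⟨k, hk2, hk⟩ := exists_k q A c hq
  refine ⟨k, hk2, ?_⟩
  intro n a u s hn hak ha0 hu hs hstep
  have hprod : ∀ j ≤ k, a j * (q + 1) ^ (∑ i ∈ Finset.range j, s i) ≤
      A ^ (∑ i ∈ Finset.range j, u i) * q ^ (∑ i ∈ Finset.range j, s i) * a 0 := by
    intro j
    induction j with
    | zero => intro _; simp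
    | succ j ih =>
      intro hj
      have h1 := ih (by omega)
      have h2 := hstep j (by omega)
      rw [Finset.sum_range_succ, Finset.sum_range_succ, pow_add, pow_add, pow_add]
      calc a (j + 1) * ((q + 1) ^ (∑ i ∈ Finset.range j, s i) * (q + 1) ^ s j)
          = (a (j + 1) * (q + 1) ^ s j) * (q + 1) ^ (∑ i ∈ Finset.range j, s i) := by ring
        _ ≤ (A ^ u j * q ^ s j * a j) * (q + 1) ^ (∑ i ∈ Finset.range j, s i) :=
            Nat.mul_le_mul_right _ h2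
        _ = A ^ u j * q ^ s j * (a j * (q + 1) ^ (∑ i ∈ Finset.range j, s i)) := by ring
        _ ≤ A ^ u j * q ^ s j * (A ^ (∑ i ∈ Finset.range j, u i) *
              q ^ (∑ i ∈ Finset.range j, s i) * a 0) := Nat.mul_le_mul_left _ h1
        _ = _ := by ring
  have h1 := hprod k le_rfl
  set S := ∑ i ∈ Finset.range k, s i with hS
  set U := ∑ i ∈ Finset.range k, u i with hU
  have hUn : U ≤ n := by
    have h2 : k * U ≤ k * n := by
      rw [hU, Finset.mul_sum]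
      calc ∑ i ∈ Finset.range k, k * u i ≤ ∑ i ∈ Finset.range k, n :=
            Finset.sum_le_sum fun i hi => hu i (Finset.mem_range.mp hi)
        _ = k * n := by simp
    exact Nat.le_of_mul_le_mul_left h2 (by omega)
  have hSn : k * n ≤ 2 * c * S := by
    rw [hS, Finset.mul_sum]
    calc k * n = ∑ i ∈ Finset.range k, n := by simp
      _ ≤ ∑ i ∈ Finset.range k, 2 * c * s i :=
          Finset.sum_le_sum fun i hi => hs i (Finset.mem_range.mp hi)
  have h3 : (q + 1) ^ S ≤ A ^ (2 * n) * q ^ S := by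
    calc (q + 1) ^ S ≤ a k * (q + 1) ^ S := Nat.le_mul_of_pos_left _ hak
      _ ≤ A ^ U * q ^ S * a 0 := h1
      _ ≤ A ^ n * q ^ S * A ^ n :=
          Nat.mul_le_mul (Nat.mul_le_mul_right _ (Nat.pow_le_pow_right hA hUn)) ha0
      _ = A ^ (2 * n) * q ^ S := by ring
  have h4 : (q + 1) ^ (2 * c * S) ≤ A ^ (4 * c * n) * q ^ (2 * c * S) := by
    calc (q + 1) ^ (2 * c * S) = ((q + 1) ^ S) ^ (2 * c) := by rw [← pow_mul]; ring_nf
      _ ≤ (A ^ (2 * n) * q ^ S) ^ (2 * c) := Nat.pow_le_pow_left h3 _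
      _ = A ^ (4 * c * n) * q ^ (2 * c * S) := by
          rw [mul_pow, ← pow_mul, ← pow_mul]
          ring_nf
  obtain ⟨d, hd⟩ := Nat.exists_eq_add_of_le hSn
  rw [hd] at h4
  have h5 : A ^ (4 * c * n) * q ^ (k * n) < (q + 1) ^ (k * n) := by
    calc A ^ (4 * c * n) * q ^ (k * n) = (A ^ (4 * c) * q ^ k) ^ n := by
          rw [mul_pow, ← pow_mul, ← pow_mul]
      _ < ((q + 1) ^ k) ^ n := Nat.pow_lt_pow_left hk (by omega)
      _ = (q + 1) ^ (k * n) := by rw [← pow_mul]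
  have h6 : A ^ (4 * c * n) * q ^ (k * n + d) < (q + 1) ^ (k * n + d) := by
    rw [pow_add, pow_add]
    calc A ^ (4 * c * n) * (q ^ (k * n) * q ^ d) = (A ^ (4 * c * n) * q ^ (k * n)) * q ^ d := by
          ring
      _ < (q + 1) ^ (k * n) * q ^ d :=
          Nat.mul_lt_mul_of_pos_right h5 (pow_pos (by omega) _)
      _ ≤ (q + 1) ^ (k * n) * (q + 1) ^ d :=
          Nat.mul_le_mul_left _ (Nat.pow_le_pow_left (by omega) _)
  omega

end Pool.Agent.T9h71.SF

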