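import Pool.Agent.TH84.SF.Spec2

set_option autoImplicit false

namespace Pool.Agent.T9h71.SF

open Pool.Agent.TH84.SF
open scoped Pointwise

theorem sT3 : S_T3 := by
  classical
  rintro G A _ X ⟨D, P, rfl⟩ E
  refine ⟨E * D⁻¹ * D, ?_⟩
  intro x hx y hy hxy z hz1 hz2 g
  by_cases hg : ∃ d0 ∈ D, g * d0 ∈ E
  · obtain ⟨d0, hd0, hg⟩ := hg
    have h1 : (fun d : D => z (g * d.1)) = fun d : D => x (g * d.1) := by
      funext d
      by_cases hd : g * d.1 ∈ E
      · exact hz1 _ hd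
      · rw [hz2 _ hd]
        refine (hxy _ ?_ hd).symm
        refine Finset.mem_mul.mpr ⟨g, Finset.mem_mul.mpr ⟨g * d0, hg, d0⁻¹,
          Finset.inv_mem_inv hd0, by group⟩, d.1, d.2, rfl⟩
    rw [h1]
    exact hx g
  · push Not at hg
    have h1 : (fun d : D => z (g * d.1)) = fun d : D => y (g * d.1) := by
      funext d
      exact hz2 _ (hg d.1 d.2)
    rw [h1]
    exact hy g


end Pool.Agent.T9h71.SF
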